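import Pool.Agent.MP_bd94e8_al.H89.Spec

/-!
Valued problems over thin directed problems are directed.
-/

set_option autoImplicit false
set_option linter.unusedSectionVars false

namespace Pool.Agent.MP_bd94e8_al.H89

open Module Function

namespace ValLiftA

variable {k F : Type} [Field k] [Field F] [Algebra k F] {Pt ι Ω : Type} [Fintype Pt]
  [DecidableEq Pt]

theorem sum_blk [Fintype ι] (P : Prob k F Pt ι Ω) (b : Matrix Pt Pt F) :
    ∑ i, ∑ j, P.blk i j b = b := by
  ext q p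
  simp only [Matrix.sum_apply]
  rw [Finset.sum_eq_single (P.vt p), Finset.sum_eq_single (P.vt q), P.blk_pos _ rfl rfl]
  · intro j _ hj
    exact P.blk_neg _ fun h => hj h.2.symm
  · simp
  · intro i _ hi
    exact Finset.sum_eq_zero fun j _ => P.blk_neg _ fun h => hi h.1.symm
  · simp

theorem mem_of_blk [Fintype ι] (P : Prob k F Pt ι Ω) {b : Matrix Pt Pt F}
    (h : ∀ i j, P.blk i j b ∈ P.B) : b ∈ P.B := by
  rw [← sum_blk P b]
  exact sum_mem fun i _ => sum_mem fun j _ => h i j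

theorem sum_e [Fintype ι] (P : Prob k F Pt ι Ω) : ∑ i, P.e i = 1 := by
  ext q p
  rw [Matrix.sum_apply, Finset.sum_eq_single (P.vt p), P.e_pos _ rfl]
  · intro i _ hi
    exact P.e_neg _ hi.symm
  · simp

theorem in_blk (P : Prob k F Pt ι Ω) (i j : ι) (b : Matrix Pt Pt F) : P.In i j (P.blk i j b) :=
  fun _ _ h => (mask_ne h).1

theorem in_single (P : Prob k F Pt ι Ω) (q p : Pt) (c : F) :
    P.In (P.vt p) (P.vt q) (Matrix.single q p c) := by
  intro q' p' h
  by_contra hn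
  apply h
  rw [Matrix.single_apply, if_neg]
  rintro ⟨rfl, rfl⟩
  exact hn ⟨rfl, rfl⟩

/-- The projection onto the points in `S`. -/
noncomputable def ES (F : Type) [Field F] (S : Pt → Prop) : Matrix Pt Pt F :=
  mask (fun _ p => S p) (1 : Matrix Pt Pt F)

theorem ES_off (S : Pt → Prop) {q p : Pt} (h : q ≠ p) : ES F S q p = 0 := by
  by_cases e : S p
  · rw [ES, mask_pos (s := fun _ p => S p) _ e, Matrix.one_apply_ne h]
  · exact mask_neg (s := fun _ p => S p) _ e

theorem ES_pos (S : Pt → Prop) {p : Pt} (h : S p) : ES F S p p = 1 := by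
  rw [ES, mask_pos (s := fun _ p => S p) _ h, Matrix.one_apply_eq]

theorem ES_neg (S : Pt → Prop) (q : Pt) {p : Pt} (h : ¬ S p) : ES F S q p = 0 :=
  mask_neg (s := fun _ p => S p) _ h

theorem mul_ES (S : Pt → Prop) (b : Matrix Pt Pt F) (q p : Pt) :
    (b * ES F S) q p = b q p * ES F S p p := by
  rw [Matrix.mul_apply, Finset.sum_eq_single p (fun x _ hx => by rw [ES_off S hx, mul_zero])
    (by simp)]

theorem ES_mul (S : Pt → Prop) (b : Matrix Pt Pt F) (q p : Pt) :
    (ES F S * b) q p = ES F S q q * b q p := by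
  rw [Matrix.mul_apply, Finset.sum_eq_single q (fun x _ hx => by rw [ES_off S hx.symm, zero_mul])
    (by simp)]

theorem ES_mul_ES_pos (S : Pt → Prop) (b : Matrix Pt Pt F) {q p : Pt} (hq : S q) (hp : S p) :
    (ES F S * b * ES F S) q p = b q p := by
  rw [mul_ES, ES_mul, ES_pos S hq, ES_pos S hp, one_mul, mul_one]

theorem ES_mul_ES_ne (S : Pt → Prop) (b : Matrix Pt Pt F) {q p : Pt}
    (h : (ES F S * b * ES F S) q p ≠ 0) : S q ∧ S p := by
  rw [mul_ES, ES_mul] at h
  constructor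
  · by_contra hn
    exact h (by rw [ES_neg S q hn, zero_mul, zero_mul])
  · by_contra hn
    exact h (by rw [ES_neg S p hn, mul_zero])

section val
variable {J Jf : Prob k F Pt ι Ω} {val : Set ι} {S : Pt → Prop}

theorem exists_rep (hS : IsRep J.vt val S) :
    ∃ r : Pt → Pt, (∀ p, S (r p)) ∧ (∀ p, J.vt (r p) = J.vt p) ∧ (∀ p, S p → r p = p) ∧
      ∀ p q, J.vt p = J.vt q → J.vt p ∈ val → r p = r q := by
  have : ∀ p, ∃ q, S q ∧ J.vt q = J.vt p ∧ (J.vt p ∉ val → q = p) := by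
    intro p
    by_cases h : J.vt p ∈ val
    · obtain ⟨q, hq, -⟩ := hS.2 _ h
      exact ⟨q, hq.2, hq.1, fun h' => absurd h h'⟩
    · exact ⟨p, hS.1 p h, rfl, fun _ => rfl⟩
  choose r h1 h2 h3 using this
  refine ⟨r, h1, h2, fun p hp => ?_, fun p q hpq hv => ?_⟩
  · by_cases h : J.vt p ∈ val
    · exact (hS.2 _ h).unique ⟨h2 p, h1 p⟩ ⟨rfl, hp⟩
    · exact h3 p h
  · exact (hS.2 _ hv).unique ⟨h2 p, h1 p⟩ ⟨(h2 q).trans hpq.symm, h1 q⟩

theorem single_mem (hv : Val J Jf val) {q p : Pt} (h : J.vt q = J.vt p) (hp : J.vt p ∈ val)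
    (c : F) : Matrix.single q p c ∈ Jf.B :=
  hv.fat _ hp _ fun q' p' h' => by
    have := in_single J q p c q' p' h'
    exact ⟨this.1, this.2.trans h⟩

theorem pk_val (hv : Val J Jf val) {q p : Pt} (h : J.vt q = J.vt p) (hp : J.vt p ∈ val) :
    J.pk q = J.pk p := by
  have := Jf.peak _ (single_mem hv h hp 1) q p (by simp)
  rwa [hv.pk] at this

theorem In_iff (hv : Val J Jf val) {i j : ι} {b : Matrix Pt Pt F} : Jf.In i j b ↔ J.In i j b := by
  simp only [Prob.In, hv.vt]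

theorem blk_eq' (hv : Val J Jf val) (i j : ι) (b : Matrix Pt Pt F) :
    Jf.blk i j b = J.blk i j b := by
  simp only [Prob.blk, hv.vt]

theorem e_eq (hv : Val J Jf val) (i : ι) : Jf.e i = J.e i := by
  simp only [Prob.e, hv.vt]

theorem blk_mem_J (hv : Val J Jf val) {i j : ι} (h : ¬ (i ∈ val ∧ j ∈ val)) {b : Matrix Pt Pt F}
    (hb : b ∈ Jf.B) : J.blk i j b ∈ J.B := by
  rw [← blk_eq' hv]
  exact hv.same i j h _ (Jf.blk_mem hb i j)

theorem e_mul_ES (hS : IsRep J.vt val S) {i : ι} (hi : i ∉ val) : J.e i * ES F S = J.e i := by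
  ext q p
  rw [mul_ES]
  by_cases h : J.vt p = i
  · rw [ES_pos S (hS.1 p (h ▸ hi)), mul_one]
  · rw [J.e_neg _ h, zero_mul]

theorem ES_mem [Fintype ι] (hS : IsRep J.vt val S) (hv : Val J Jf val) : ES F S ∈ Jf.B := by
  rw [← one_mul (ES F S), ← sum_e J, Finset.sum_mul]
  refine sum_mem fun i _ => ?_
  by_cases hi : i ∈ val
  · refine hv.fat i hi _ fun q p h => ?_
    rw [mul_ES] at h
    have h1 := left_ne_zero_of_mul h
    have h2 : J.vt p = i := (mask_ne h1).1
    have h3 : q = p := by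
      by_contra hn
      exact h1 (J.e_off i hn)
    exact ⟨h2, h3 ▸ h2⟩
  · rw [e_mul_ES hS hi]
    exact hv.le (J.e_mem i)

theorem e_eq_sum (P : Prob k F Pt ι Ω) [DecidableEq ι] (i : ι) :
    P.e i = ∑ p ∈ Finset.univ.filter (fun p => P.vt p = i), Matrix.single p p (1 : F) := by
  ext q p
  rw [Matrix.sum_apply]
  by_cases h : P.vt p = i
  · rw [P.e_pos _ h, Finset.sum_eq_single p]
    · simp [Matrix.single_apply, Matrix.one_apply, eq_comm]
    · intro x _ hx
      simp [hx]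
    · simp [h]
  · rw [P.e_neg _ h]
    refine (Finset.sum_eq_zero fun x hx => ?_).symm
    have : x ≠ p := fun e => h (e ▸ (Finset.mem_filter.1 hx).2)
    simp [this]

theorem morOk [Fintype ι] (hS : IsRep J.vt val S) (hv : Val J Jf val) : MorOk Jf S := by
  classical
  refine ⟨ES_mem hS hv, ?_⟩
  obtain ⟨r, r1, r2, -, -⟩ := exists_rep hS
  have key : ∀ A : AddSubgroup (Matrix Pt Pt F), (∀ i, J.e i ∈ A) → (1 : Matrix Pt Pt F) ∈ A :=
    fun A hA => sum_e J ▸ sum_mem fun i _ => hA i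
  refine key _ fun i => ?_
  by_cases hi : i ∈ val
  · rw [e_eq_sum]
    refine sum_mem fun p hp => AddSubgroup.subset_closure ?_
    have hp' : J.vt p ∈ val := (Finset.mem_filter.1 hp).2 ▸ hi
    refine ⟨Matrix.single p (r p) 1, single_mem hv (r2 p).symm ((r2 p).symm ▸ hp') 1,
      Matrix.single (r p) p 1, single_mem hv (r2 p) hp' 1, ?_⟩
    have : Matrix.single p (r p) (1 : F) * ES F S = Matrix.single p (r p) 1 := by
      ext x y
      rw [mul_ES]
      by_cases e : r p = y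
      · rw [← e, ES_pos S (r1 p), mul_one]
      · simp [e]
    change _ = Matrix.single p (r p) (1 : F) * ES F S * _
    rw [this, Matrix.single_mul_single_same, mul_one]
  · refine AddSubgroup.subset_closure ⟨J.e i, hv.le (J.e_mem i), 1, one_mem _, ?_⟩
    change _ = J.e i * ES F S * 1
    rw [e_mul_ES hS hi, mul_one]

/-- an entry can be moved to the representatives -/
theorem move (hS : IsRep J.vt val S) (hv : Val J Jf val) {r : Pt → Pt}
    (r2 : ∀ p, J.vt (r p) = J.vt p) (r3 : ∀ p, S p → r p = p) {b : Matrix Pt Pt F}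
    (hb : b ∈ Jf.B) (q p : Pt) : ∃ b' ∈ Jf.B, b' (r q) (r p) = b q p := by
  have h1 : ∃ x ∈ Jf.B, ∀ c : Matrix Pt Pt F, ∀ y, (x * c) (r q) y = c q y := by
    by_cases h : J.vt q ∈ val
    · exact ⟨_, single_mem hv (r2 q) h 1, fun c y => by simp⟩
    · exact ⟨1, one_mem _, fun c y => by rw [one_mul, r3 q (hS.1 q h)]⟩
  have h2 : ∃ x ∈ Jf.B, ∀ c : Matrix Pt Pt F, ∀ y, (c * x) y (r p) = c y p := by
    by_cases h : J.vt p ∈ val
    · exact ⟨_, single_mem hv (r2 p).symm ((r2 p).symm ▸ h) 1, fun c y => by simp⟩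
    · exact ⟨1, one_mem _, fun c y => by rw [mul_one, r3 p (hS.1 p h)]⟩
  obtain ⟨x, hx, ex⟩ := h1
  obtain ⟨y, hy, ey⟩ := h2
  exact ⟨x * (b * y), mul_mem hx (mul_mem hb hy), by rw [ex, ey]⟩

variable [DecidablePred S]

theorem sub_mem' (h : SubOk Jf S) {b : Matrix Pt Pt F} (hb : b ∈ Jf.B) :
    b.submatrix (Subtype.val : {p // S p} → Pt) Subtype.val ∈ (Jf.sub S h).B := ⟨b, hb, rfl⟩

theorem smul_e (hS : IsRep J.vt val S) (hv : Val J Jf val) (h : SubOk Jf S)
    (sc : ∀ (c : F), ∀ b ∈ (Jf.sub S h).B, c • b ∈ (Jf.sub S h).B) {i : ι} (hi : i ∉ val)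
    (c : F) : c • J.e i ∈ J.B := by
  obtain ⟨b, hb, e⟩ := sc c _ (sub_mem' h (hv.le (J.e_mem i)))
  have : c • J.e i = J.blk i i b := by
    ext q p
    by_cases h1 : J.vt p = i ∧ J.vt q = i
    · rw [J.blk_pos _ h1.1 h1.2]
      exact (congrFun (congrFun e ⟨q, hS.1 q (h1.2 ▸ hi)⟩) ⟨p, hS.1 p (h1.1 ▸ hi)⟩).symm
    · rw [J.blk_neg _ h1, Matrix.smul_apply]
      by_cases h2 : J.vt p = i
      · rw [J.e_off i fun e' : q = p => h1 ⟨h2, e' ▸ h2⟩, smul_zero]
      · rw [J.e_neg _ h2, smul_zero]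
  rw [this]
  exact blk_mem_J hv (fun h' => hi h'.1) hb

end val

end ValLiftA

open ValLiftA in
theorem valDir : SValDir := by
  intro k F _ _ _ Pt ι Ω _ _ _ J Jf val S _ hS hv
  refine ⟨morOk hS hv, fun h L td => ?_⟩
  obtain ⟨r, r1, r2, r3, -⟩ := exists_rep hS
  have dist : ∀ p q, J.vt p = J.vt q → J.vt p ∉ val → J.pk p = J.pk q → p = q := by
    intro p q h1 h2 h3
    have := td.dist ⟨p, hS.1 p h2⟩ ⟨q, hS.1 q (h1 ▸ h2)⟩
      (by change Jf.vt p = Jf.vt q; rwa [hv.vt]) (by change Jf.pk p = Jf.pk q; rwa [hv.pk])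
    exact congrArg Subtype.val this
  refine ⟨⟨fun i => ?_, ?_, fun i => ?_⟩, dist, fun i j hi c b hb => ?_⟩
  · obtain ⟨p, hp⟩ := td.surj i
    exact ⟨p.1, by rw [← hv.vt]; exact hp⟩
  · obtain ⟨rk, hrk⟩ := td.rk
    refine ⟨rk, fun b hb q p h1 h2 => ?_⟩
    obtain ⟨b', hb', e⟩ := move hS hv r2 r3 (hv.le hb) q p
    have := hrk _ (sub_mem' h hb') ⟨r q, r1 q⟩ ⟨r p, r1 p⟩ (by rw [← e] at h1; exact h1)
      (by change Jf.vt (r q) ≠ Jf.vt (r p); rwa [hv.vt, r2, r2])
    change rk (Jf.vt (r q)) < rk (Jf.vt (r p)) at this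
    rwa [hv.vt, r2, r2] at this
  · by_cases hi : i ∈ val
    · exact hv.div i hi
    intro b hb h0
    have off : ∀ q p, b q p ≠ 0 → q = p := fun q p h1 =>
      dist q p ((hb.2 q p h1).2.trans (hb.2 q p h1).1.symm) ((hb.2 q p h1).2 ▸ hi)
        (J.peak b hb.1 q p h1)
    obtain ⟨q, p, h1⟩ : ∃ q p, b q p ≠ 0 := by
      by_contra hn
      push Not at hn
      exact h0 (Matrix.ext hn)
    obtain rfl := off q p h1
    have hq : J.vt q = i := (hb.2 q q h1).1
    have dg : ∀ p, J.vt p = i → b p p = b q q := fun p hp =>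
      td.diag _ (sub_mem' h (hv.le hb.1)) ⟨p, hS.1 p (hp ▸ hi)⟩ ⟨q, hS.1 q (hq ▸ hi)⟩
        (by change Jf.vt p = Jf.vt q; rw [hv.vt, hp, hq])
    have eb : b = b q q • J.e i := by
      ext x y
      rw [Matrix.smul_apply]
      by_cases e : x = y
      · subst e
        by_cases hx : J.vt x = i
        · rw [J.e_pos _ hx, dg x hx]
          simp
        · rw [J.e_neg _ hx, smul_zero]
          by_contra hn
          exact hx (hb.2 x x hn).1
      · rw [J.e_off i e, smul_zero]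
        by_contra hn
        exact e (off x y hn)
    have ee : J.e i * J.e i = J.e i := by
      have := J.blk_eq i i 1
      rw [mul_one] at this
      rw [← this]
      ext x y
      by_cases h2 : J.vt y = i ∧ J.vt x = i
      · rw [J.blk_pos _ h2.1 h2.2, J.e_pos _ h2.1]
      · rw [J.blk_neg _ h2]
        by_cases h3 : J.vt y = i
        · rw [J.e_off i fun e' : x = y => h2 ⟨h3, e' ▸ h3⟩]
        · rw [J.e_neg _ h3]
    refine ⟨(b q q)⁻¹ • J.e i, ⟨smul_e hS hv h td.scal hi _, fun x y h2 => ?_⟩, ?_⟩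
    · have h3 : J.e i x y ≠ 0 := fun e => h2 (by rw [Matrix.smul_apply, e, smul_zero])
      have h4 : J.vt y = i := (mask_ne h3).1
      have h5 : x = y := by
        by_contra hn
        exact h3 (J.e_off i hn)
      exact ⟨h4, h5 ▸ h4⟩
    · conv_lhs => rw [eb]
      rw [smul_mul_smul_comm, ee]
      simp only [Matrix.smul_apply, J.e_pos q hq, Matrix.one_apply_eq, smul_eq_mul, mul_one]
      rw [inv_mul_cancel₀ h1, one_smul]
  · have : c • b = b * (c • J.e i) := by
      rw [Matrix.mul_smul]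
      congr 1
      ext q p
      rw [Matrix.mul_apply, Finset.sum_eq_single p (fun x _ hx => by rw [J.e_off i hx, mul_zero])
        (by simp)]
      by_cases h1 : J.vt p = i
      · rw [J.e_pos _ h1, Matrix.one_apply_eq, mul_one]
      · rw [J.e_neg _ h1, mul_zero]
        by_contra hn
        exact h1 (hb.2 q p hn).1
    rw [this]
    exact mul_mem hb.1 (smul_e hS hv h td.scal hi c)

end Pool.Agent.MP_bd94e8_al.H89
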