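import Pool.Agent.MP_bd94e8_al.H84B.ValDir

/-!
Lifts of valued problems.
-/

set_option autoImplicit false
set_option linter.unusedSectionVars false

namespace Pool.Agent.MP_bd94e8_al.H89

open Module Function

namespace ValLiftA

variable {k F : Type} [Field k] [Field F] [Algebra k F] {Pt ι Ω : Type} [Fintype Pt]
  [DecidableEq Pt]

section grading
variable {G : Type} [Group G]

theorem mask_sum {α : Type} (σ : Pt → Pt → Prop) (s : Finset α) (f : α → Matrix Pt Pt F) :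
    mask σ (∑ a ∈ s, f a) = ∑ a ∈ s, mask σ (f a) := by
  ext q p
  rw [Matrix.sum_apply]
  by_cases h : σ q p
  · simp only [mask_pos _ h, Matrix.sum_apply]
  · simp only [mask_neg _ h, Finset.sum_const_zero]

theorem mask_mul_left (deg : Pt → G) (s : G) {x : Matrix Pt Pt F}
    (hx : ∀ q p, x q p ≠ 0 → deg q = deg p) (b : Matrix Pt Pt F) :
    mask (fun q p => deg p = s * deg q) (x * b) = x * mask (fun q p => deg p = s * deg q) b := by
  ext q p
  rw [Matrix.mul_apply]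
  by_cases h : deg p = s * deg q
  · rw [mask_pos (s := fun q p => deg p = s * deg q) _ h, Matrix.mul_apply]
    refine Finset.sum_congr rfl fun y _ => ?_
    by_cases e : x q y = 0
    · rw [e, zero_mul, zero_mul]
    · rw [mask_pos (s := fun q p => deg p = s * deg q) _ (hx q y e ▸ h)]
  · rw [mask_neg (s := fun q p => deg p = s * deg q) _ h]
    refine (Finset.sum_eq_zero fun y _ => ?_).symm
    by_cases e : x q y = 0
    · rw [e, zero_mul]
    · rw [mask_neg (s := fun q p => deg p = s * deg q) _ (hx q y e ▸ h), mul_zero]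

theorem mask_mul_right (deg : Pt → G) (s : G) {x : Matrix Pt Pt F}
    (hx : ∀ q p, x q p ≠ 0 → deg q = deg p) (b : Matrix Pt Pt F) :
    mask (fun q p => deg p = s * deg q) (b * x) = mask (fun q p => deg p = s * deg q) b * x := by
  ext q p
  rw [Matrix.mul_apply]
  by_cases h : deg p = s * deg q
  · rw [mask_pos (s := fun q p => deg p = s * deg q) _ h, Matrix.mul_apply]
    refine Finset.sum_congr rfl fun y _ => ?_
    by_cases e : x y p = 0
    · rw [e, mul_zero, mul_zero]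
    · rw [mask_pos (s := fun q p => deg p = s * deg q) _ ((hx y p e).symm ▸ h)]
  · rw [mask_neg (s := fun q p => deg p = s * deg q) _ h]
    refine (Finset.sum_eq_zero fun y _ => ?_).symm
    by_cases e : x y p = 0
    · rw [e, mul_zero]
    · rw [mask_neg (s := fun q p => deg p = s * deg q) _ ((hx y p e).symm ▸ h), zero_mul]

theorem blk_mask (P : Prob k F Pt ι Ω) (σ : Pt → Pt → Prop) (i j : ι) (b : Matrix Pt Pt F) :
    P.blk i j (mask σ b) = mask σ (P.blk i j b) := by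
  ext q p
  by_cases h : P.vt p = i ∧ P.vt q = j
  · rw [P.blk_pos _ h.1 h.2, mask_apply, mask_apply, P.blk_pos _ h.1 h.2]
  · rw [P.blk_neg _ h, mask_apply, P.blk_neg _ h, ite_self]

variable {J Jf : Prob k F Pt ι Ω} {val : Set ι} {S : Pt → Prop} [DecidablePred S]

theorem graded_fat [Fintype ι] (hS : IsRep J.vt val S) (hv : Val J Jf val) (h : SubOk Jf S)
    {d₀ : {p // S p} → G} (gr : Graded (Jf.sub S h) d₀) {deg : Pt → G}
    (d1 : ∀ p : {p // S p}, deg p.1 = d₀ p)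
    (d2 : ∀ p q, J.vt p = J.vt q → J.vt p ∈ val → deg p = deg q) : Graded Jf deg := by
  classical
  obtain ⟨r, r1, r2, -, -⟩ := exists_rep hS
  intro b hb s
  have hE := ES_mem hS hv
  -- elements supported on the representatives
  have base : ∀ c ∈ Jf.B,
      mask (fun q p => deg p = s * deg q) (ES F S * c * ES F S) ∈ Jf.B := by
    intro c hc
    obtain ⟨c', hc', e⟩ := gr _ (sub_mem' h hc) s
    have : mask (fun q p => deg p = s * deg q) (ES F S * c * ES F S) = ES F S * c' * ES F S := by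
      ext q p
      by_cases hq : S q ∧ S p
      · rw [ES_mul_ES_pos S _ hq.1 hq.2, mask_apply, ES_mul_ES_pos S _ hq.1 hq.2]
        have e1 := congrFun (congrFun e ⟨q, hq.1⟩) ⟨p, hq.2⟩
        rw [mask_apply, ← d1, ← d1] at e1
        exact e1.symm
      · have z1 : ∀ c : Matrix Pt Pt F, (ES F S * c * ES F S) q p = 0 := fun c => by
          by_contra hn
          exact hq (ES_mul_ES_ne S c hn)
        rw [mask_apply, z1, z1, ite_self]
    rw [this]
    exact mul_mem (mul_mem hE hc') hE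
  -- a homogeneous decomposition of the identity
  have dec : ∀ i, ∃ (s : Finset Pt) (x y : Pt → Matrix Pt Pt F) (x0 : Matrix Pt Pt F),
      J.e i = x0 * ES F S * 1 + ∑ p ∈ s, x p * ES F S * y p ∧ x0 ∈ Jf.B ∧
      (∀ q p, x0 q p ≠ 0 → deg q = deg p) ∧ ∀ a ∈ s, x a ∈ Jf.B ∧ y a ∈ Jf.B ∧
        (∀ q p, x a q p ≠ 0 → deg q = deg p) ∧ ∀ q p, y a q p ≠ 0 → deg q = deg p := by
    intro i
    by_cases hi : i ∈ val
    · refine ⟨Finset.univ.filter fun p => J.vt p = i, fun p => Matrix.single p (r p) 1,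
        fun p => Matrix.single (r p) p 1, 0, ?_, zero_mem _, fun q p h0 => (h0 rfl).elim,
        fun a ha => ?_⟩
      · rw [zero_mul, zero_mul, zero_add, e_eq_sum]
        refine Finset.sum_congr rfl fun p _ => ?_
        have : Matrix.single p (r p) (1 : F) * ES F S = Matrix.single p (r p) 1 := by
          ext x y
          rw [mul_ES]
          by_cases e : r p = y
          · rw [← e, ES_pos S (r1 p), mul_one]
          · simp [e]
        rw [this, Matrix.single_mul_single_same, mul_one]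
      · have hp' : J.vt a ∈ val := (Finset.mem_filter.1 ha).2 ▸ hi
        refine ⟨single_mem hv (r2 a).symm ((r2 a).symm ▸ hp') 1, single_mem hv (r2 a) hp' 1,
          fun q p h0 => ?_, fun q p h0 => ?_⟩
        · have := in_single J a (r a) 1 q p h0
          exact d2 q p (by rw [this.1, this.2, r2]) (this.2 ▸ hp')
        · have := in_single J (r a) a 1 q p h0
          exact d2 q p (by rw [this.1, this.2, r2]) (by rw [this.2, r2]; exact hp')
    · refine ⟨∅, 0, 0, J.e i, by rw [e_mul_ES hS hi]; simp, hv.le (J.e_mem i),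
        fun q p h0 => ?_, by simp⟩
      by_contra hn
      exact h0 (J.e_off i fun e => hn (e ▸ rfl))
  -- the set of good pairs
  have one : ∀ q p, (1 : Matrix Pt Pt F) q p ≠ 0 → deg q = deg p := fun q p h0 => by
    by_contra hn
    exact h0 (Matrix.one_apply_ne fun e => hn (e ▸ rfl))
  have key : ∀ x y x' y' : Matrix Pt Pt F, x ∈ Jf.B → y ∈ Jf.B → x' ∈ Jf.B → y' ∈ Jf.B →
      (∀ q p, x q p ≠ 0 → deg q = deg p) → (∀ q p, y' q p ≠ 0 → deg q = deg p) →
      mask (fun q p => deg p = s * deg q) (x * ES F S * y * b * (x' * ES F S * y')) ∈ Jf.B := by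
    intro x y x' y' hx hy hx' hy' gx gy
    have : x * ES F S * y * b * (x' * ES F S * y') =
        x * ((ES F S * (y * b * x') * ES F S) * y') := by simp only [mul_assoc]
    rw [this, mask_mul_left deg s gx, mask_mul_right deg s gy]
    exact mul_mem hx (mul_mem (base _ (mul_mem (mul_mem hy hb) hx')) hy')
  have add : ∀ x y : Matrix Pt Pt F, mask (fun q p => deg p = s * deg q) (x + y) =
      mask (fun q p => deg p = s * deg q) x + mask (fun q p => deg p = s * deg q) y := by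
    intro x y
    ext q p
    simp only [mask_apply, Matrix.add_apply]
    split_ifs <;> simp
  refine mem_of_blk Jf fun i j => ?_
  rw [blk_mask, blk_eq' hv, J.blk_eq]
  obtain ⟨s1, x, y, x0, e1, a1, a2, a3⟩ := dec j
  obtain ⟨s2, x', y', x0', e2, b1, b2, b3⟩ := dec i
  rw [e1, e2]
  simp only [add_mul, mul_add, Finset.sum_mul, Finset.mul_sum, add, mask_sum]
  refine add_mem (add_mem ?_ (sum_mem fun a ha => ?_))
    (sum_mem fun c hc => add_mem ?_ (sum_mem fun a ha => ?_))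
  · exact key _ _ _ _ a1 (one_mem _) b1 (one_mem _) a2 one
  · exact key _ _ _ _ (a3 a ha).1 (a3 a ha).2.1 b1 (one_mem _) (a3 a ha).2.2.1 one
  · exact key _ _ _ _ a1 (one_mem _) (b3 c hc).1 (b3 c hc).2.1 a2 (b3 c hc).2.2.2
  · exact key _ _ _ _ (a3 a ha).1 (a3 a ha).2.1 (b3 c hc).1 (b3 c hc).2.1 (a3 a ha).2.2.1
      (b3 c hc).2.2.2

theorem graded_J [Fintype ι] (hv : Val J Jf val) {deg : Pt → G} (gr : Graded Jf deg)
    (d2 : ∀ p q, J.vt p = J.vt q → J.vt p ∈ val → deg p = deg q) : Graded J deg := by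
  intro b hb s
  refine mem_of_blk J fun i j => ?_
  by_cases h : i ∈ val ∧ j ∈ val
  · by_cases h1 : ∃ p q, J.vt p = i ∧ J.vt q = j ∧ deg p = s * deg q
    · obtain ⟨p0, q0, e1, e2, e3⟩ := h1
      have : J.blk i j (mask (fun q p => deg p = s * deg q) b) = J.blk i j b := by
        ext q p
        by_cases h2 : J.vt p = i ∧ J.vt q = j
        · rw [J.blk_pos _ h2.1 h2.2, J.blk_pos _ h2.1 h2.2,
            mask_pos (s := fun q p => deg p = s * deg q)]
          rw [d2 p p0 (h2.1.trans e1.symm) (h2.1 ▸ h.1), d2 q q0 (h2.2.trans e2.symm) (h2.2 ▸ h.2)]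
          exact e3
        · rw [J.blk_neg _ h2, J.blk_neg _ h2]
      rw [this]
      exact (J.blk_mem hb i j).1
    · have : J.blk i j (mask (fun q p => deg p = s * deg q) b) = 0 := by
        ext q p
        by_cases h2 : J.vt p = i ∧ J.vt q = j
        · rw [J.blk_pos _ h2.1 h2.2, mask_neg (s := fun q p => deg p = s * deg q) _
            fun e => h1 ⟨p, q, h2.1, h2.2, e⟩, Matrix.zero_apply]
        · rw [J.blk_neg _ h2, Matrix.zero_apply]
      rw [this]
      exact zero_mem _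
  · exact blk_mem_J hv h (gr b (hv.le hb) s)

theorem ls_up (hv : Val J Jf val) (h : SubOk Jf S) {d₀ : {p // S p} → G} {deg : Pt → G}
    (d1 : ∀ p : {p // S p}, deg p.1 = d₀ p)
    (d2 : ∀ p q, J.vt p = J.vt q → J.vt p ∈ val → deg p = deg q) (x y : ι × G)
    (hl : LS (Jf.sub S h).vt (Jf.sub S h).Ar d₀ x y) : LS J.vt J.Ar deg x y := by
  obtain ⟨p, q, e1, e2, e3, ⟨-, _, ⟨b, hb, rfl⟩, e4⟩, e5⟩ := hl
  change Jf.vt p.1 = x.1 at e1
  change Jf.vt q.1 = y.1 at e2
  change Jf.vt p.1 ≠ Jf.vt q.1 at e3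
  change b q.1 p.1 ≠ 0 at e4
  rw [← d1, ← d1] at e5
  have e1' := e1
  have e2' := e2
  rw [hv.vt] at e1 e2 e3
  by_cases hb2 : x.1 ∈ val ∧ y.1 ∈ val
  · obtain ⟨c, hc, p', q', f1, f2, f3⟩ :=
      hv.succ _ hb2.1 _ hb2.2 ⟨b, hb, p.1, q.1, e1', e2', e4⟩
    have ne : J.vt p' ≠ J.vt q' := by rwa [f1, f2, ← e1, ← e2]
    refine ⟨p', q', f1, f2, ne, ⟨fun e => ne (e ▸ rfl), c, hc, f3⟩, ?_⟩
    rwa [d2 p' p.1 (f1.trans e1.symm) (f1 ▸ hb2.1), d2 q' q.1 (f2.trans e2.symm) (f2 ▸ hb2.2)]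
  · exact ⟨p.1, q.1, e1, e2, e3, ⟨fun e => e3 (e ▸ rfl), _, blk_mem_J hv hb2 hb, by
      rwa [J.blk_pos _ e1 e2]⟩, e5⟩

theorem tie_up [Fintype ι] (hS : IsRep J.vt val S) (hv : Val J Jf val) (h : SubOk Jf S)
    {p q p' q' : {p // S p}} (hp : J.vt p.1 ∉ val)
    (ht : Tie (Jf.sub S h).vt (Jf.sub S h).R0 (p, q) (p', q')) :
    Tie J.vt J.R0 (p.1, q.1) (p'.1, q'.1) := by
  obtain ⟨t1, t2, t3, t4, _, ⟨⟨b, hb, rfl⟩, t5⟩, t6, t7, t8⟩ := ht
  change Jf.vt p.1 = Jf.vt p'.1 at t2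
  change Jf.vt q.1 = Jf.vt q'.1 at t3
  rw [hv.vt] at t2 t3
  have sup : Sup2 (ES F S * b * ES F S) (p.1, q.1) (p'.1, q'.1) := by
    intro y x h0
    obtain ⟨hy, hx⟩ := ES_mul_ES_ne S b h0
    rw [ES_mul_ES_pos S b hy hx] at h0
    rcases t8 ⟨y, hy⟩ ⟨x, hx⟩ h0 with e | e
    · left
      obtain ⟨rfl, rfl⟩ := Prod.ext_iff.1 e
      rfl
    · right
      obtain ⟨rfl, rfl⟩ := Prod.ext_iff.1 e
      rfl
  have hE := ES_mem hS hv
  refine ⟨fun e => t1 ?_, t2, t3, fun hm => t4 ⟨⟨_, hv.le hm.1, ?_⟩, fun x => ?_⟩,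
    ES F S * b * ES F S, ⟨hv.same (J.vt p.1) (J.vt q.1) (fun h' => hp h'.1) _
      ⟨mul_mem (mul_mem hE hb) hE, (In_iff hv).2 fun y x h0 => ?_⟩, fun x => ?_⟩, ?_, ?_, sup⟩
  · obtain ⟨e1, e2⟩ := Prod.ext_iff.1 e
    exact Prod.ext (Subtype.ext e1) (Subtype.ext e2)
  · ext y x
    simp [Matrix.single_apply, Subtype.ext_iff]
  · have := hm.2 x.1
    simpa [Matrix.single_apply, Subtype.ext_iff] using this
  · rcases sup y x h0 with e | e
    · obtain ⟨rfl, rfl⟩ := Prod.ext_iff.1 e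
      exact ⟨rfl, rfl⟩
    · obtain ⟨rfl, rfl⟩ := Prod.ext_iff.1 e
      exact ⟨t2.symm, t3.symm⟩
  · by_contra hn
    have hx := (ES_mul_ES_ne S b hn).1
    rw [ES_mul_ES_pos S b hx hx] at hn
    exact hn (t5 ⟨x, hx⟩)
  · rw [ES_mul_ES_pos S b q.2 p.2]
    exact t6
  · rw [ES_mul_ES_pos S b q'.2 p'.2]
    exact t7

theorem eqv_up [Fintype ι] (hS : IsRep J.vt val S) (hv : Val J Jf val) (h : SubOk Jf S)
    {x y : {p // S p}}
    (he : Relation.EqvGen (Link (Tie (Jf.sub S h).vt (Jf.sub S h).R0)) x y) :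
    J.vt x.1 = J.vt y.1 ∧ (J.vt x.1 ∉ val → Relation.EqvGen (Link (Tie J.vt J.R0)) x.1 y.1) := by
  induction he with
  | rel x y hxy =>
    obtain ⟨q, q', ht⟩ := hxy
    refine ⟨?_, fun hx => .rel _ _ ⟨_, _, tie_up hS hv h hx ht⟩⟩
    have := ht.2.1
    change Jf.vt x.1 = Jf.vt y.1 at this
    rwa [hv.vt] at this
  | refl x => exact ⟨rfl, fun _ => .refl _⟩
  | symm x y _ ih => exact ⟨ih.1.symm, fun hy => .symm _ _ (ih.2 (ih.1 ▸ hy))⟩
  | trans x y z _ _ ih1 ih2 =>
    exact ⟨ih1.1.trans ih2.1, fun hx => .trans _ _ _ (ih1.2 hx) (ih2.2 (ih1.1 ▸ hx))⟩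

end grading

section cover
variable {T I O : Type} [Fintype T] [DecidableEq T] {J' : Prob k F T I O}
  {J : Prob k F Pt ι Ω} {π : T → Pt}

/-- The block from `i` to `j` of the pull-back of a matrix. -/
noncomputable def up (J' : Prob k F T I O) (π : T → Pt) (i j : I) (h : Matrix Pt Pt F) :
    Matrix T T F := J'.blk i j (h.submatrix π π)

theorem up_mem (hc : Cover J' J π) {i j : I}
    (hp : ∀ t t', J'.vt t = i → J'.vt t' = j → J'.pk t' = J'.pk t) {h : Matrix Pt Pt F}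
    (hh : h ∈ J.B) : up J' π i j h ∈ J'.H i j := by
  refine ⟨(hc.mem _).2 ⟨fun t' t h0 => ?_, fun i' j' => ?_⟩, in_blk J' i j _⟩
  · have := in_blk J' i j _ t' t h0
    exact hp t t' this.1 this.2
  · by_cases e : i' = i ∧ j' = j
    · exact ⟨h, hh, fun t t' h1 h2 => J'.blk_pos _ (h1.trans e.1) (h2.trans e.2)⟩
    · exact ⟨0, zero_mem _, fun t t' h1 h2 => J'.blk_neg _ fun h3 =>
        e ⟨h1.symm.trans h3.1, h2.symm.trans h3.2⟩⟩

open Classical in
theorem sum_fib (hc : Cover J' J π) (t0 : T) (f : Pt → F)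
    (hf : ∀ p, J.vt p ≠ J.vt (π t0) → f p = 0) :
    ∑ t, (if J'.vt t = J'.vt t0 then f (π t) else 0) = ∑ p, f p := by
  rw [← Finset.sum_filter, ← Finset.sum_filter_of_ne (s := Finset.univ)
    (p := fun p => J.vt p = J.vt (π t0)) (f := f) fun p _ h0 => by
      by_contra hn
      exact h0 (hf p hn)]
  refine Finset.sum_bij (fun t _ => π t) (fun t ht => ?_) (fun t ht t' ht' e => ?_)
    (fun p hp => ?_) fun _ _ => rfl
  · exact Finset.mem_filter.2 ⟨Finset.mem_univ _, hc.vt_eq _ _ (Finset.mem_filter.1 ht).2⟩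
  · exact hc.inj _ _ ((Finset.mem_filter.1 ht).2.trans (Finset.mem_filter.1 ht').2.symm) e
  · obtain ⟨t, h1, h2⟩ := hc.full t0 p (Finset.mem_filter.1 hp).2
    exact ⟨t, Finset.mem_filter.2 ⟨Finset.mem_univ _, h1⟩, h2⟩

theorem exists_up (hc : Cover J' J π) (t0 : T) {b : Matrix T T F}
    (hb : b ∈ J'.H (J'.vt t0) (J'.vt t0)) :
    ∃ h ∈ J.H (J.vt (π t0)) (J.vt (π t0)), b = up J' π (J'.vt t0) (J'.vt t0) h := by
  obtain ⟨h, hh, e⟩ := ((hc.mem b).1 hb.1).2 (J'.vt t0) (J'.vt t0)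
  refine ⟨_, J.blk_mem hh _ _, ?_⟩
  ext t' t
  by_cases h1 : J'.vt t = J'.vt t0 ∧ J'.vt t' = J'.vt t0
  · rw [up, J'.blk_pos _ h1.1 h1.2, Matrix.submatrix_apply,
      J.blk_pos _ (hc.vt_eq _ _ h1.1) (hc.vt_eq _ _ h1.2), e t t' h1.1 h1.2]
  · rw [up, J'.blk_neg _ h1]
    by_contra hn
    exact h1 (hb.2 t' t hn)

theorem up_mul (hc : Cover J' J π) (t0 : T) {a : Matrix Pt Pt F} (b : Matrix Pt Pt F)
    (ha : J.In (J.vt (π t0)) (J.vt (π t0)) a) :
    up J' π (J'.vt t0) (J'.vt t0) a * up J' π (J'.vt t0) (J'.vt t0) b =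
      up J' π (J'.vt t0) (J'.vt t0) (a * b) := by
  classical
  ext t' t
  rw [Matrix.mul_apply]
  by_cases h1 : J'.vt t = J'.vt t0 ∧ J'.vt t' = J'.vt t0
  · rw [up, up, up, J'.blk_pos _ h1.1 h1.2, Matrix.submatrix_apply, Matrix.mul_apply,
      ← sum_fib hc t0 (fun p => a (π t') p * b p (π t)) fun p hp => by
        have : a (π t') p = 0 := by
          by_contra hn
          exact hp (ha _ _ hn).1
        rw [this, zero_mul]]
    refine Finset.sum_congr rfl fun s _ => ?_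
    by_cases hs : J'.vt s = J'.vt t0
    · rw [if_pos hs, J'.blk_pos _ hs h1.2, J'.blk_pos _ h1.1 hs]
      rfl
    · rw [if_neg hs, J'.blk_neg _ fun h2 => hs h2.1, zero_mul]
  · rw [up, up, up, J'.blk_neg _ h1]
    refine Finset.sum_eq_zero fun s _ => ?_
    by_cases h2 : J'.vt t = J'.vt t0
    · rw [J'.blk_neg _ fun h3 => h1 ⟨h2, h3.2⟩, zero_mul]
    · rw [J'.blk_neg (p := t) _ fun h3 => h2 h3.1, mul_zero]

theorem up_e (hc : Cover J' J π) (t0 : T) :
    up J' π (J'.vt t0) (J'.vt t0) (J.e (J.vt (π t0))) = J'.e (J'.vt t0) := by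
  ext t' t
  by_cases h1 : J'.vt t = J'.vt t0 ∧ J'.vt t' = J'.vt t0
  · rw [up, J'.blk_pos _ h1.1 h1.2, Matrix.submatrix_apply, J.e_pos _ (hc.vt_eq _ _ h1.1),
      J'.e_pos _ h1.1]
    by_cases e : t' = t
    · rw [e, Matrix.one_apply_eq, Matrix.one_apply_eq]
    · rw [Matrix.one_apply_ne e, Matrix.one_apply_ne fun e' =>
        e (hc.inj _ _ (h1.2.trans h1.1.symm) e')]
  · rw [up, J'.blk_neg _ h1]
    by_cases h2 : J'.vt t = J'.vt t0
    · rw [J'.e_off _ fun e : t' = t => h1 ⟨h2, e ▸ h2⟩]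
    · rw [J'.e_neg _ h2]

theorem div_up (hc : Cover J' J π) (t0 : T)
    (hp : ∀ t t', J'.vt t = J'.vt t0 → J'.vt t' = J'.vt t0 → J'.pk t' = J'.pk t)
    (hd : Div J (J.vt (π t0))) : Div J' (J'.vt t0) := by
  intro b hb h0
  obtain ⟨h, hh, rfl⟩ := exists_up hc t0 hb
  obtain ⟨h', hh', e⟩ := hd h hh fun e => h0 (by
    rw [e]
    ext t' t
    simp [up, Prob.blk, mask_apply])
  exact ⟨_, up_mem hc hp hh'.1, by rw [up_mul hc t0 h hh'.2, e, up_e hc]⟩

open Classical in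
/-- Pull-back of row vectors to one vertex. -/
noncomputable def upv (J' : Prob k F T I O) (π : T → Pt) (i : I) : (Pt → F) →ₗ[F] T → F where
  toFun x t := if J'.vt t = i then x (π t) else 0
  map_add' x y := funext fun t => by
    simp only [Pi.add_apply]
    split_ifs <;> simp
  map_smul' c x := funext fun t => by
    simp only [Pi.smul_apply, RingHom.id_apply]
    split_ifs <;> simp

open Classical in
theorem upv_apply (i : I) (x : Pt → F) (t : T) :
    upv J' π i x t = if J'.vt t = i then x (π t) else 0 := rfl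

theorem upv_surj (hc : Cover J' J π) (t0 : T) (y : T → F)
    (hy : ∀ t, J'.vt t ≠ J'.vt t0 → y t = 0) :
    ∃ x : Pt → F, (∀ p, J.vt p ≠ J.vt (π t0) → x p = 0) ∧ upv J' π (J'.vt t0) x = y := by
  classical
  refine ⟨fun p => ∑ t, if π t = p then y t else 0, fun p hp => ?_, funext fun t => ?_⟩
  · refine Finset.sum_eq_zero fun t _ => ?_
    split_ifs with e
    · exact hy t fun e' => hp (e ▸ hc.vt_eq _ _ e')
    · rfl
  · rw [upv_apply]
    split_ifs with e
    · rw [Finset.sum_eq_single t, if_pos rfl]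
      · intro s _ hs
        split_ifs with e'
        · exact hy s fun e'' => hs (hc.inj _ _ (e''.trans e.symm) e')
        · rfl
      · simp
    · exact (hy t e).symm

theorem row_up (hc : Cover J' J π) (t0 : T)
    (hp : ∀ t t', J'.vt t = J'.vt t0 → J'.vt t' = J'.vt t0 → J'.pk t' = J'.pk t)
    (hd : RowSimple J (J.vt (π t0))) : RowSimple J' (J'.vt t0) := by
  classical
  intro W h1 h2
  let W0 : Submodule F (Pt → F) :=
    { carrier := {x | (∀ p, J.vt p ≠ J.vt (π t0) → x p = 0) ∧ upv J' π (J'.vt t0) x ∈ W}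
      add_mem' := fun {x y} hx hy => ⟨fun p e => by rw [Pi.add_apply, hx.1 p e, hy.1 p e, add_zero],
        by rw [map_add]; exact W.add_mem hx.2 hy.2⟩
      zero_mem' := ⟨fun _ _ => rfl, by rw [map_zero]; exact W.zero_mem⟩
      smul_mem' := fun c x hx => ⟨fun p e => by rw [Pi.smul_apply, hx.1 p e, smul_zero],
        by rw [map_smul]; exact W.smul_mem c hx.2⟩ }
  have key := hd W0 (fun x hx => hx.1) fun b hb x hx => ⟨fun p e => ?_, ?_⟩
  rcases key with h | h
  · left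
    refine (Submodule.eq_bot_iff _).2 fun y hy => ?_
    obtain ⟨x, e1, e2⟩ := upv_surj hc t0 y (h1 y hy)
    have : x ∈ W0 := ⟨e1, e2 ▸ hy⟩
    rw [h, Submodule.mem_bot] at this
    rw [← e2, this, map_zero]
  · right
    intro y hy
    obtain ⟨x, e1, e2⟩ := upv_surj hc t0 y hy
    exact e2 ▸ (h x e1).2
  · refine Finset.sum_eq_zero fun q _ => ?_
    have : b q p = 0 := by
      by_contra hn
      exact e (hb.2 q p hn).1
    simp only [this, mul_zero]
  · have := h2 _ (up_mem hc hp hb.1) _ hx.2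
    convert this using 1
    ext t
    rw [upv_apply]
    simp only [Matrix.vecMul, dotProduct]
    split_ifs with e
    · rw [← sum_fib hc t0 (fun p => x p * b p (π t)) fun p hp => by rw [hx.1 p hp, zero_mul]]
      refine Finset.sum_congr rfl fun s _ => ?_
      rw [upv_apply]
      by_cases hs : J'.vt s = J'.vt t0
      · rw [if_pos hs, if_pos hs, up, J'.blk_pos _ e hs]
        rfl
      · rw [if_neg hs, if_neg hs, zero_mul]
    · refine (Finset.sum_eq_zero fun s _ => ?_).symm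
      rw [up, J'.blk_neg _ fun h3 => e h3.1, mul_zero]

end cover

end ValLiftA

open ValLiftA in
theorem valLift (hP : SPiece) (hC : SCov1) : SValLift := by
  intro k F _ _ _ Pt ι Ω _ _ _ J Jf val S _ h hS hv G _ d₀ gr
  obtain ⟨r, r1, r2, r3, r4⟩ := exists_rep hS
  set deg : Pt → G := fun p => d₀ ⟨r p, r1 p⟩ with hdeg
  have d1 : ∀ p : {p // S p}, deg p.1 = d₀ p := fun p =>
    congrArg d₀ (Subtype.ext (r3 p.1 p.2))
  have d2 : ∀ p q, J.vt p = J.vt q → J.vt p ∈ val → deg p = deg q := fun p q e hp =>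
    congrArg d₀ (Subtype.ext (r4 p q e hp))
  have gf := graded_fat hS hv h gr d1 d2
  refine ⟨deg, d1, d2, graded_J hv gf d2, gf, fun sd a => ?_, ls_up hv h d1 d2,
    fun T I O _ _ J' π γ θ hL => ?_⟩
  · obtain ⟨L, side, s1, s2⟩ := sd a
    refine ⟨L, side, fun b g hn p q hp hq => ?_, fun ha p q hp hq e => ?_⟩
    · exact s1 b g (fun hr => hn (Relation.ReflTransGen.mono (ls_up hv h d1 d2) _ _ hr)) ⟨r p, r1 p⟩ ⟨r q, r1 q⟩
        (by change Jf.vt (r p) = b; rw [hv.vt, r2, hp])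
        (by change Jf.vt (r q) = b; rw [hv.vt, r2, hq])
    · have sp : S p := hS.1 p (hp ▸ ha)
      have sq : S q := hS.1 q (hq ▸ ha)
      refine (eqv_up hS hv h (s2 (fun h0 => h0) ⟨p, sp⟩ ⟨q, sq⟩
        (by change Jf.vt p = a; rw [hv.vt, hp]) (by change Jf.vt q = a; rw [hv.vt, hq]) ?_)).2
        (hp ▸ ha)
      rw [← d1, ← d1]
      exact e
  obtain ⟨Jf', ev, ep, hL'⟩ := (hP k F Pt ι Ω Jf G deg gf).2 J T I O J' π γ θ hv.vt hv.pk hL
  obtain ⟨h', hc'⟩ := (hC k F Pt ι Ω Jf T I O Jf' π hL'.cov).2.2.2 S h (morOk hS hv)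
  have hc := hL.cov
  have pkv : ∀ t t', J'.vt t = J'.vt t' → (γ (J'.vt t)).1 ∈ val → J'.pk t' = J'.pk t := by
    intro t t' e hz
    rw [hL.vt] at hz
    have e1 := hc.vt_eq _ _ e
    apply hL.θinj
    rw [hL.pk, hL.pk, ← e, pk_val hv e1.symm hz, d2 _ _ e1 hz]
  have rep : IsRep J'.vt {i | (γ i).1 ∈ val} fun t => S (π t) := by
    refine ⟨fun t ht => hS.1 _ (hL.vt t ▸ ht), fun z hz => ?_⟩
    obtain ⟨t0, rfl⟩ := hL.surj z
    have hz' : J.vt (π t0) ∈ val := hL.vt t0 ▸ hz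
    obtain ⟨t, e1, e2⟩ := hc.full t0 (r (π t0)) (r2 _)
    refine ⟨t, ⟨e1, show S (π t) from e2 ▸ r1 _⟩, fun s hs => hc.inj _ _ (hs.1.trans e1.symm) ?_⟩
    rw [e2]
    exact (hS.2 _ hz').unique ⟨hc.vt_eq _ _ hs.1, hs.2⟩ ⟨r2 _, r1 _⟩
  refine ⟨Jf', h', ⟨ev, ep, fun b hb => ?_, fun i j hij b hb => ?_, fun z hz c hcz => ?_,
    fun i hi j hj hs => ?_, fun z hz => ?_, fun z hz => ?_⟩, rep,
    ⟨hL.γinj, hL.θinj, fun t => hL'.vt t.1, fun t => ?_, fun i => ?_, hc'⟩⟩
  · obtain ⟨b1, b2⟩ := (hc.mem b).1 hb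
    refine (hL'.cov.mem b).2 ⟨by rwa [ep], fun i j => ?_⟩
    obtain ⟨c, hc1, e⟩ := b2 i j
    exact ⟨c, hv.le hc1, by rwa [ev]⟩
  · obtain ⟨b1, b2⟩ := (hL'.cov.mem b).1 hb.1
    rw [ep] at b1
    rw [ev] at b2
    have b3 : J'.In i j b := by
      have := hb.2
      simpa only [Prob.In, ev] using this
    refine (hc.mem b).2 ⟨b1, fun i' j' => ?_⟩
    by_cases e : i' = i ∧ j' = j
    · obtain ⟨c, hc1, e1⟩ := b2 i j
      refine ⟨_, blk_mem_J hv hij hc1, fun t t' h1 h2 => ?_⟩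
      rw [J.blk_pos _ (by rw [← hL.vt, h1, e.1]) (by rw [← hL.vt, h2, e.2])]
      exact e1 t t' (h1.trans e.1) (h2.trans e.2)
    · refine ⟨0, zero_mem _, fun t t' h1 h2 => ?_⟩
      by_contra hn
      exact e ⟨h1.symm.trans (b3 _ _ hn).1, h2.symm.trans (b3 _ _ hn).2⟩
  · refine (hL'.cov.mem c).2 ⟨fun t' t h0 => ?_, fun i j => ?_⟩
    · rw [ep]
      exact pkv t t' ((hcz _ _ h0).1.trans (hcz _ _ h0).2.symm) ((hcz _ _ h0).1 ▸ hz)
    · rw [ev]
      by_cases e : i = z ∧ j = z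
      · refine ⟨∑ s', ∑ s, Matrix.single (π s') (π s) (c s' s),
          sum_mem fun s' _ => sum_mem fun s _ => ?_, fun t t' h1 h2 => ?_⟩
        · by_cases h0 : c s' s = 0
          · rw [h0, Matrix.single_zero]
            exact zero_mem _
          · exact single_mem hv (hc.vt_eq _ _ ((hcz _ _ h0).2.trans (hcz _ _ h0).1.symm))
              (by rw [← hL.vt, (hcz _ _ h0).1]; exact hz) _
        · simp only [Matrix.sum_apply]
          rw [Finset.sum_eq_single t', Finset.sum_eq_single t, Matrix.single_apply_same]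
          · intro s _ hs
            rw [Matrix.single_apply]
            split_ifs with e1
            · by_contra hn
              exact hs (hc.inj _ _ ((hcz _ _ hn).1.trans (h1.trans e.1).symm) e1.2)
            · rfl
          · simp
          · intro s' _ hs
            refine Finset.sum_eq_zero fun s _ => ?_
            rw [Matrix.single_apply]
            split_ifs with e1
            · by_contra hn
              exact hs (hc.inj _ _ ((hcz _ _ hn).2.trans (h2.trans e.2).symm) e1.1)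
            · rfl
          · simp
      · refine ⟨0, zero_mem _, fun t t' h1 h2 => ?_⟩
        by_contra hn
        exact e ⟨h1.symm.trans (hcz _ _ hn).1, h2.symm.trans (hcz _ _ hn).2⟩
  · obtain ⟨b, hb, t, t', e1, e2, e3⟩ := hs
    obtain ⟨b1, b2⟩ := (hL'.cov.mem b).1 hb
    obtain ⟨c, hc1, e⟩ := b2 i j
    have e4 := b1 _ _ e3
    rw [e t t' e1 e2] at e3
    rw [ev] at e1 e2
    rw [ep] at e4
    subst e1 e2
    obtain ⟨c', hc2, p, q, f1, f2, f3⟩ := hv.succ _ hi _ hj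
      ⟨c, hc1, π t, π t', by rw [hv.vt, hL.vt], by rw [hv.vt, hL.vt], e3⟩
    obtain ⟨s, g1, g2⟩ := hc.full t p (f1.trans (hL.vt t))
    obtain ⟨s', g3, g4⟩ := hc.full t' q (f2.trans (hL.vt t'))
    refine ⟨_, (up_mem hc (i := J'.vt t) (j := J'.vt t') (fun x y h1 h2 => ?_) hc2).1, s, s', g1,
      g3, ?_⟩
    · rw [pkv t' y h2.symm hj, e4, pkv t x h1.symm hi]
    · rw [up, J'.blk_pos _ g1 g3, Matrix.submatrix_apply, g2, g4]
      exact f3
  · obtain ⟨t0, rfl⟩ := hL.surj z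
    exact div_up hc t0 (fun t t' h1 h2 => pkv t t' (h1.trans h2.symm) (h1 ▸ hz))
      (hv.div _ (hL.vt t0 ▸ hz))
  · obtain ⟨t0, rfl⟩ := hL.surj z
    exact row_up hc t0 (fun t t' h1 h2 => pkv t t' (h1.trans h2.symm) (h1 ▸ hz))
      (hv.row _ (hL.vt t0 ▸ hz))
  · have := hL'.pk t.1
    rw [d1 ⟨π t.1, t.2⟩] at this
    exact this
  · by_cases hi : (γ i).1 ∈ val
    · obtain ⟨t, ht, -⟩ := rep.2 i hi
      exact ⟨⟨t, ht.2⟩, by change Jf'.vt t = i; rw [ev, ht.1]⟩
    · obtain ⟨t, ht⟩ := hL.surj i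
      exact ⟨⟨t, rep.1 t (ht ▸ hi)⟩, by change Jf'.vt t = i; rw [ev, ht]⟩

end Pool.Agent.MP_bd94e8_al.H89
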